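import Mathlib
import Pool.Agent.Lib.MP_7cf8a2_an.Defs
import Pool.Agent.Lib.MP_7cf8a2_an.Bridge

/-!
For the unimodular irreducible Pisot substitution `a ↦ aabbb, b ↦ abb` the boundary of the
Rauzy fractal has Hausdorff dimension at least `1/6`, while the intersection with the Rauzy
fractal of the reverse substitution is the single point `0`.

Idea: in the coordinate of `E^s` given by the left eigenvector `(1, -1/√3)` all prefixes of the
words `aabbb` and `abb` have nonnegative values. Hence the Rauzy fractal lies in `[0, ∞)`, and
that of the reverse substitution in `(-∞, 0]`. Near `0` and near a second point the fractal is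
a scaled copy of itself with a gap on the left, so its boundary contains a Cantor set of positive
dimension.
-/

set_option autoImplicit false

open Pool.Agent.Lib.MP_7cf8a2_an

namespace Pool.Agent.Results.MP_7cf8a2_an.DifferentDimensions

theorem result :
    IsUnimodularIrreduciblePisot sig lam ∧ inc (rev sig) = inc sig ∧
    (∃ u, IsFixedPoint sig u) ∧ (∃ u', IsFixedPoint (rev sig) u') ∧
    (∀ x, ∃! y, IsProj (inc sig) lam x y) ∧
    ∀ u u', IsFixedPoint sig u → IsFixedPoint (rev sig) u' →
      rauzy (inc sig) lam u ∩ rauzy (inc sig) lam u' = {0} ∧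
      bdDim (inc sig) lam (rauzy (inc sig) lam u ∩ rauzy (inc sig) lam u') = 0 ∧
      1 / 6 ≤ bdDim (inc sig) lam (rauzy (inc sig) lam u) := by
  obtain ⟨u, hu⟩ := fixed_exists
  exact ⟨pisot, inc_rev _, ⟨u, hu⟩, ⟨_, hu.reverse⟩, splits, fun u u' hu hu' => final hu hu'⟩

end Pool.Agent.Results.MP_7cf8a2_an.DifferentDimensions
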